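import Mathlib
import Pool.Agent.Lib.MP_90b327_co.EX.EFin

/-!
The density statement of the restricted polynomial Hales-Jewett problem for `d = 2`, every density and every
family, up to the exchange of `w (|γ|)` elements of one side: products `γ × γ'` with `|γ'| = |γ|` exactly and
`|γ' \ γ| ≤ w (|γ|)`, `w` tending to infinity arbitrarily slowly.
-/

set_option autoImplicit false

namespace Pool.Agent.Results.MP_90b327_co.ExactNearSquares

open Pool.Agent.Lib.MP_90b327_co Pool.Agent.Lib.MP_90b327_co.RB Pool.Agent.Lib.MP_90b327_co.EX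

/-- For all `δ > 0`, `M` and all `w : ℕ → ℕ` tending to infinity there is `N₀` such that for
`N ≥ N₀` every family of more than `δ * 2^(N^2)` subsets of `[N]^2` contains a set `A` and
`A ∪ γ × γ'` for some `γ, γ' ⊆ [N]` with `γ` non-empty, `|γ| ≥ M`, `|γ'| = |γ|`, `|γ' \ γ| ≤ w (|γ|)`,
`|γ \ γ'| ≤ w (|γ|)` and `A` disjoint from `γ × γ'`. -/
theorem result :
    ∀ δ : ℝ, 0 < δ → ∀ (M : ℕ) (w : ℕ → ℕ), Filter.Tendsto w Filter.atTop Filter.atTop →
      ∃ N₀ : ℕ, ∀ N : ℕ, N₀ ≤ N → ∀ S : Finset (Finset (Fin 2 → Fin N)),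
        (S.card : ℝ) > δ * (2 : ℝ) ^ (N ^ 2) →
          ∃ A ∈ S, ∃ γ γ' : Finset (Fin N), γ.Nonempty ∧ M ≤ γ.card ∧ γ'.card = γ.card ∧
            (γ' \ γ).card ≤ w γ.card ∧ (γ \ γ').card ≤ w γ.card ∧
            Disjoint A (Fintype.piFinset ![γ, γ']) ∧
            A ∪ Fintype.piFinset ![γ, γ'] ∈ S := by
  intro δ hδ M w hw
  obtain ⟨N₀, h₀⟩ := exb δ hδ M w hw
  refine ⟨N₀, fun N hN S hS => ?_⟩
  obtain ⟨A, hA, γ, γ', h1, h2, h3, h4, h5, h6⟩ := h₀ N hN S hS
  have e : bx γ γ' = Fintype.piFinset ![γ, γ'] := by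
    ext c
    simp [bx, Fintype.mem_piFinset, Fin.forall_fin_two]
  refine ⟨A, hA, γ, γ', h1, h2, h3, h4, ?_, ?_, ?_⟩
  · have h7 := Finset.card_sdiff_add_card_inter γ γ'
    have h8 := Finset.card_sdiff_add_card_inter γ' γ
    rw [Finset.inter_comm γ' γ] at h8
    omega
  · rw [← e]
    exact h5
  · rw [← e]
    exact h6

end Pool.Agent.Results.MP_90b327_co.ExactNearSquares
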