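import Mathlib
import Pool.Agent.Lib.MP_90b327_co.LS.Main

/-!
The restricted density polynomial Hales-Jewett statement, in every dimension and for every density,
up to a bounded number of changes which keep all line sums, and outside every small exceptional family.
-/

set_option autoImplicit false

namespace Pool.Agent.Results.MP_90b327_co.LineSums

open Finset

/-- The number of points of `A` on the axis parallel line through `a` in direction `j`. -/
def lineSum {d N : ℕ} (A : Finset (Fin d → Fin N)) (j : Fin d) (a : Fin d → Fin N) : ℕ :=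
  ((univ : Finset (Fin N)).filter (fun v => Function.update a j v ∈ A)).card

/-- For all `d ≥ 1` and `δ > 0` there are `m`, `ε > 0` and `N0` such that for all `N ≥ N0`: if `S` is a family of
more than `δ * 2^(N^d)` subsets of `[N]^d` and `E` is a family of at most `ε * 2^(N^d)` subsets of `[N]^d`, then there are
`A, B ∈ S` and a non-empty `γ ⊆ [N]` such that `A` is disjoint from `γ^d`, neither `A` nor `A ∪ γ^d` is in `E`, and
`A ∪ γ^d` and `B` have the same number of points on every axis parallel line and differ in at most `m` points.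

In particular, if `S` contains with a set all sets with the same line sums, then `S` and every family close to `S`
contain a pair `A`, `A ∪ γ^d` (take for `E` the symmetric difference). -/
theorem result (d : ℕ) (hd : 1 ≤ d) (δ : ℝ) (hδ : 0 < δ) :
    ∃ (m : ℕ) (ε : ℝ), 0 < ε ∧ ∃ N0 : ℕ, ∀ N : ℕ, N0 ≤ N →
      ∀ S E : Finset (Finset (Fin d → Fin N)),
        (S.card : ℝ) > δ * (2 : ℝ) ^ (N ^ d) → (E.card : ℝ) ≤ ε * (2 : ℝ) ^ (N ^ d) →
        ∃ A ∈ S, ∃ B ∈ S, ∃ γ : Finset (Fin N), γ.Nonempty ∧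
          Disjoint A (Fintype.piFinset (fun _ : Fin d => γ)) ∧
          A ∉ E ∧ A ∪ Fintype.piFinset (fun _ : Fin d => γ) ∉ E ∧
          (∀ j a, lineSum (A ∪ Fintype.piFinset (fun _ : Fin d => γ)) j a = lineSum B j a) ∧
          (symmDiff (A ∪ Fintype.piFinset (fun _ : Fin d => γ)) B).card ≤ m := by
  obtain ⟨m, ε, hε, N0, h⟩ := Pool.Agent.Lib.MP_90b327_co.LS.main_aux d hd δ hδ
  refine ⟨m, ε, hε, N0, ?_⟩
  intro N hN S E hS hE
  obtain ⟨A, hA, B, hB, γ, hγ, h1, h2, h3, h4, h5⟩ := h N hN S E hS.le hE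
  exact ⟨A, hA, B, hB, γ, hγ, h1, h4, h5, h2, h3⟩

/-- The consequence mentioned above: families close to a family determined by line sums. -/
theorem near_line_sum_determined (d : ℕ) (hd : 1 ≤ d) (δ : ℝ) (hδ : 0 < δ) :
    ∃ ε : ℝ, 0 < ε ∧ ∃ N0 : ℕ, ∀ N : ℕ, N0 ≤ N →
      ∀ S0 S : Finset (Finset (Fin d → Fin N)),
        (∀ A ∈ S0, ∀ B : Finset (Fin d → Fin N), (∀ j a, lineSum A j a = lineSum B j a) → B ∈ S0) →
        ((symmDiff S S0).card : ℝ) ≤ ε * (2 : ℝ) ^ (N ^ d) →
        (S.card : ℝ) > δ * (2 : ℝ) ^ (N ^ d) →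
          ∃ A ∈ S, ∃ γ : Finset (Fin N), γ.Nonempty ∧
            Disjoint A (Fintype.piFinset (fun _ : Fin d => γ)) ∧
            A ∪ Fintype.piFinset (fun _ : Fin d => γ) ∈ S := by
  obtain ⟨_, ε, hε, N0, h⟩ := result d hd (δ / 2) (by linarith)
  refine ⟨min ε (δ / 4), lt_min hε (by linarith), N0, ?_⟩
  intro N hN S0 S hcl hSS hS
  have hp : (0 : ℝ) < (2 : ℝ) ^ (N ^ d) := by positivity
  have hE1 : ((symmDiff S S0).card : ℝ) ≤ ε * (2 : ℝ) ^ (N ^ d) :=
    hSS.trans (mul_le_mul_of_nonneg_right (min_le_left _ _) hp.le)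
  have hE2 : ((symmDiff S S0).card : ℝ) ≤ δ / 4 * (2 : ℝ) ^ (N ^ d) :=
    hSS.trans (mul_le_mul_of_nonneg_right (min_le_right _ _) hp.le)
  have hsub : S ⊆ S0 ∪ symmDiff S S0 := by
    intro A hA
    rw [Finset.mem_union, Finset.mem_symmDiff]
    by_cases h0 : A ∈ S0
    · exact Or.inl h0
    · exact Or.inr (Or.inl ⟨hA, h0⟩)
  have hc : (S.card : ℝ) ≤ S0.card + (symmDiff S S0).card := by
    have := (Finset.card_le_card hsub).trans (Finset.card_union_le _ _)
    exact_mod_cast this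
  have hδp : 0 < δ * (2 : ℝ) ^ (N ^ d) := by positivity
  obtain ⟨A, hA, B, hB, γ, hγ, h1, h4, h5, h2, _⟩ := h N hN S0 (symmDiff S S0) (by linarith) hE1
  have h6 : A ∪ Fintype.piFinset (fun _ : Fin d => γ) ∈ S0 :=
    hcl B hB _ (fun j a => (h2 j a).symm)
  rw [Finset.mem_symmDiff] at h4 h5
  refine ⟨A, ?_, γ, hγ, h1, ?_⟩
  · by_contra hcon
    exact h4 (Or.inr ⟨hA, hcon⟩)
  · by_contra hcon
    exact h5 (Or.inr ⟨h6, hcon⟩)

end Pool.Agent.Results.MP_90b327_co.LineSums
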