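import Mathlib
import Pool.Agent.Lib.MP_90b327_co.Interface
import Pool.Agent.Lib.MP_90b327_co.Lower

/-!
A lower bound for `N(d, δ)`: for `d ≥ 2` there are bad families of density greater than `δ` for all
`N ≤ 2 ^ (c * (1/δ) ^ (1.87 (d-1)))`.
-/

set_option autoImplicit false

namespace Pool.Agent.Results.MP_90b327_co.LowerBound

open Pool.Agent.Lib.MP_90b327_co

/-- a set of residues modulo `65` no two of which differ by a square -/
lemma residues : ∀ r ∈ ({0, 2, 5, 22, 24, 43, 46} : Finset ℕ), ∀ u : ℕ, ¬ 65 ∣ u →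
    (r + u ^ 2) % 65 ∉ ({0, 2, 5, 22, 24, 43, 46} : Finset ℕ) := by
  have key : ∀ r ∈ ({0, 2, 5, 22, 24, 43, 46} : Finset ℕ), ∀ u ∈ Finset.range 65, u ≠ 0 →
      (r + u ^ 2) % 65 ∉ ({0, 2, 5, 22, 24, 43, 46} : Finset ℕ) := by
    decide +kernel
  intro r hr u hu
  have h1 := key r hr (u % 65) (Finset.mem_range.mpr (Nat.mod_lt _ (by norm_num)))
    (fun h => hu (Nat.dvd_of_mod_eq_zero h))
  have h2 : (r + u ^ 2) % 65 = (r + (u % 65) ^ 2) % 65 := by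
    rw [Nat.add_mod, Nat.pow_mod, Nat.add_mod r ((u % 65) ^ 2)]
  rw [h2]
  exact h1

lemma exponent : ((65 : ℝ) / 7) ^ (1.87 : ℝ) ≤ 65 := by
  have h0 : (0 : ℝ) ≤ (65 : ℝ) / 7 := by norm_num
  have h1 : (((65 : ℝ) / 7) ^ (1.87 : ℝ)) ^ (100 : ℕ) ≤ (65 : ℝ) ^ (100 : ℕ) := by
    have h2 : (((65 : ℝ) / 7) ^ (1.87 : ℝ)) ^ (100 : ℕ) = ((65 : ℝ) / 7) ^ (187 : ℕ) := by
      rw [← Real.rpow_natCast, ← Real.rpow_mul h0, ← Real.rpow_natCast]
      congr 1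
      norm_num
    rw [h2, div_pow, div_le_iff₀ (by positivity)]
    norm_num
  exact (pow_le_pow_iff_left₀ (by positivity) (by norm_num) (by norm_num)).mp h1

/-- For every `d ≥ 2` there is `c > 0` such that for all `0 < δ < 1/2` and all
`N ≤ 2 ^ (c * (1/δ) ^ (1.87 (d-1)))` some family of more than `δ * 2^(N^d)` subsets of `[N]^d`
contains no `A` and `A ∪ γ^d` with `γ` non-empty and `A` disjoint from `γ^d`. -/
theorem result (d : ℕ) (hd : 2 ≤ d) : ∃ c : ℝ, 0 < c ∧ ∀ δ : ℝ, 0 < δ → δ < 1 / 2 → ∀ N : ℕ,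
    (N : ℝ) ≤ (2 : ℝ) ^ (c * (1 / δ) ^ ((1.87 : ℝ) * ((d : ℝ) - 1))) →
      ∃ S : Finset (Finset (Fin d → Fin N)),
        (S.card : ℝ) > δ * (2 : ℝ) ^ (N ^ d) ∧
          ¬ ∃ A ∈ S, ∃ γ : Finset (Fin N), γ.Nonempty ∧
            Disjoint A (Fintype.piFinset (fun _ : Fin d => γ)) ∧
            A ∪ Fintype.piFinset (fun _ : Fin d => γ) ∈ S := by
  refine ⟨(1 / 520 : ℝ) ^ (d - 1), by positivity, ?_⟩
  intro δ hδ0 hδ N hN
  have hδ1 : (0 : ℝ) < 1 / δ := by positivity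
  -- the scale `V`
  have hex : ∃ n : ℕ, 1 / (2 * δ) ≤ ((65 : ℝ) / 7) ^ n := by
    obtain ⟨n, hn⟩ := pow_unbounded_of_one_lt (1 / (2 * δ)) (by norm_num : (1 : ℝ) < 65 / 7)
    exact ⟨n, hn.le⟩
  classical
  obtain ⟨V, hV1, hV2⟩ : ∃ V : ℕ, ((65 : ℝ) / 7) ^ V < 1 / (2 * δ) ∧
      1 / (2 * δ) ≤ ((65 : ℝ) / 7) ^ (V + 1) := by
    have h1 := Nat.find_spec hex
    have h2 : Nat.find hex ≠ 0 := by
      intro h0
      rw [h0, pow_zero, div_le_iff₀ (by positivity)] at h1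
      linarith
    obtain ⟨V, hV⟩ := Nat.exists_eq_succ_of_ne_zero h2
    refine ⟨V, ?_, ?_⟩
    · have := Nat.find_min hex (m := V) (by omega)
      push Not at this
      exact this
    · rw [hV] at h1
      exact h1
  -- the exponent
  have hy : (1 / δ) ^ (1.87 : ℝ) ≤ 260 * 65 ^ V := by
    have h1 : 1 / δ ≤ 2 * ((65 : ℝ) / 7) ^ (V + 1) := by
      have : 1 / δ = 2 * (1 / (2 * δ)) := by field_simp
      rw [this]
      linarith
    calc (1 / δ) ^ (1.87 : ℝ) ≤ (2 * ((65 : ℝ) / 7) ^ (V + 1)) ^ (1.87 : ℝ) :=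
          Real.rpow_le_rpow hδ1.le h1 (by norm_num)
      _ = (2 : ℝ) ^ (1.87 : ℝ) * (((65 : ℝ) / 7) ^ (1.87 : ℝ)) ^ (V + 1) := by
          rw [Real.mul_rpow (by norm_num) (by positivity)]
          congr 1
          rw [← Real.rpow_natCast, ← Real.rpow_natCast, ← Real.rpow_mul (by norm_num),
            ← Real.rpow_mul (by norm_num), mul_comm]
      _ ≤ 4 * (65 : ℝ) ^ (V + 1) := by
          apply mul_le_mul _ (pow_le_pow_left₀ (by positivity) exponent _) (by positivity)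
            (by norm_num)
          calc (2 : ℝ) ^ (1.87 : ℝ) ≤ (2 : ℝ) ^ (2 : ℝ) :=
                Real.rpow_le_rpow_of_exponent_le (by norm_num) (by norm_num)
            _ = 4 := by norm_num
      _ = 260 * 65 ^ V := by ring
  have hexp : (1 / 520 : ℝ) ^ (d - 1) * (1 / δ) ^ ((1.87 : ℝ) * ((d : ℝ) - 1)) ≤
      ((1 / 2 : ℝ) * 65 ^ V) ^ (d - 1) := by
    have h1 : (1 / δ) ^ ((1.87 : ℝ) * ((d : ℝ) - 1)) = ((1 / δ) ^ (1.87 : ℝ)) ^ (d - 1) := by
      rw [Real.rpow_mul hδ1.le, ← Real.rpow_natCast]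
      congr 1
      rw [Nat.cast_sub (by omega)]
      norm_num
    rw [h1, ← mul_pow]
    apply pow_le_pow_left₀ (by positivity)
    linarith
  have hN2 : (N : ℝ) ≤ (2 : ℝ) ^ (((1 / 2 : ℝ) * 65 ^ V) ^ (d - 1)) :=
    hN.trans (Real.rpow_le_rpow_of_exponent_le (by norm_num) hexp)
  rcases Nat.eq_zero_or_pos V with hV0 | hVpos
  · -- `N ≤ 1`
    subst hV0
    have h1 : ((1 / 2 : ℝ) * 65 ^ 0) ^ (d - 1) ≤ 1 / 2 := by
      rw [pow_zero, mul_one]
      calc (1 / 2 : ℝ) ^ (d - 1) ≤ (1 / 2 : ℝ) ^ 1 :=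
            pow_le_pow_of_le_one (by norm_num) (by norm_num) (by omega)
        _ = 1 / 2 := pow_one _
    have h2 : (N : ℝ) < 2 := by
      calc (N : ℝ) ≤ (2 : ℝ) ^ (((1 / 2 : ℝ) * 65 ^ 0) ^ (d - 1)) := hN2
        _ ≤ (2 : ℝ) ^ (1 / 2 : ℝ) := Real.rpow_le_rpow_of_exponent_le (by norm_num) h1
        _ < (2 : ℝ) ^ (1 : ℝ) := Real.rpow_lt_rpow_of_exponent_lt (by norm_num) (by norm_num)
        _ = 2 := Real.rpow_one 2
    have h3 : N < 2 := by exact_mod_cast h2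
    refine ⟨{∅}, ?_, ?_⟩
    · rw [Finset.card_singleton]
      have h4 : (2 : ℝ) ^ (N ^ d) ≤ 2 := by
        have : N ^ d ≤ 1 := Nat.pow_le_one_iff (by omega) |>.mpr (by omega)
        calc (2 : ℝ) ^ (N ^ d) ≤ (2 : ℝ) ^ 1 := pow_le_pow_right₀ (by norm_num) this
          _ = 2 := pow_one _
      have : δ * (2 : ℝ) ^ (N ^ d) ≤ δ * 2 := mul_le_mul_of_nonneg_left h4 hδ0.le
      push_cast
      linarith
    · rintro ⟨A, hA, γ, hγ, _, h2⟩
      rw [Finset.mem_singleton] at hA h2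
      rw [hA, Finset.empty_union] at h2
      obtain ⟨v, hv⟩ := hγ
      have : (fun _ : Fin d => v) ∈ Fintype.piFinset (fun _ : Fin d => γ) :=
        Fintype.mem_piFinset.mpr (fun _ => hv)
      rw [h2] at this
      simp at this
  · have h1 : N ≤ 2 ^ ((65 ^ V) ^ (d - 1)) := by
      have : (N : ℝ) ≤ (2 : ℝ) ^ (((65 ^ V) ^ (d - 1) : ℕ) : ℝ) := by
        refine hN2.trans (Real.rpow_le_rpow_of_exponent_le (by norm_num) ?_)
        push_cast
        apply pow_le_pow_left₀ (by positivity)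
        have : (0 : ℝ) < 65 ^ V := by positivity
        linarith
      rw [Real.rpow_natCast] at this
      exact_mod_cast this
    obtain ⟨S, hS1, hS2⟩ := exists_bad d hd 65 (by norm_num)
      ({0, 2, 5, 22, 24, 43, 46} : Finset ℕ) (by decide) residues V hVpos N h1
    refine ⟨S, ?_, hS1⟩
    have hc : ({0, 2, 5, 22, 24, 43, 46} : Finset ℕ).card = 7 := by decide
    rw [hc] at hS2
    have h2 : (7 : ℝ) ^ V * 2 ^ (N ^ d) ≤ 2 * 65 ^ V * S.card := by exact_mod_cast hS2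
    rw [div_pow, div_lt_div_iff₀ (by positivity) (by positivity)] at hV1
    have h3 : (0 : ℝ) < 2 ^ (N ^ d) := by positivity
    have h4 : (65 : ℝ) ^ V * (2 * δ) * 2 ^ (N ^ d) < 7 ^ V * 2 ^ (N ^ d) := by
      apply mul_lt_mul_of_pos_right _ h3
      linarith
    have h5 : (65 : ℝ) ^ V * 2 * (δ * 2 ^ (N ^ d)) < (65 : ℝ) ^ V * 2 * S.card := by
      linarith
    exact lt_of_mul_lt_mul_left h5 (by positivity)

end Pool.Agent.Results.MP_90b327_co.LowerBound
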