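import Mathlib
import Pool.Agent.Lib.MP_90b327_co.OI.OFin

/-!
The density statement of the restricted polynomial Hales-Jewett problem in EVERY dimension `d`, for every density
and every family, up to `w (|g|)` additional elements in `d - 1` of the `d` coordinates, `w` tending to infinity
arbitrarily slowly.
-/

set_option autoImplicit false

namespace Pool.Agent.Results.MP_90b327_co.NearCubes

/-- For all `d`, `δ > 0`, all `w : ℕ → ℕ` tending to infinity and all sets `T` of sizes containing
arbitrarily long intervals there is `N₀` such that for `N ≥ N₀`, every coordinate `i` and every family of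
more than `δ * 2^(N^d)` subsets of `[N]^d` there are `g ⊆ G ⊆ [N]`, `g` non-empty, `|g| ∈ T`,
`|G \ g| ≤ w (|g|)` such that the family contains a set `A` and `A ∪ B`, where `B` consists of
the cells whose `i`-th coordinate is in `g` and whose other coordinates are in `G`, and `A` is disjoint from `B`. -/
theorem result :
    ∀ (d : ℕ) (δ : ℝ), 0 < δ → ∀ w : ℕ → ℕ, Filter.Tendsto w Filter.atTop Filter.atTop →
      ∀ T : Set ℕ, (∀ k : ℕ, ∃ x : ℕ, ∀ i < k, x + i ∈ T) →
      ∃ N₀ : ℕ, ∀ N : ℕ, N₀ ≤ N → ∀ i : Fin d, ∀ S : Finset (Finset (Fin d → Fin N)),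
        (S.card : ℝ) > δ * (2 : ℝ) ^ (N ^ d) →
          ∃ A ∈ S, ∃ g G : Finset (Fin N), g.Nonempty ∧ g ⊆ G ∧ g.card ∈ T ∧
            (G \ g).card ≤ w g.card ∧
            Disjoint A (Fintype.piFinset (Function.update (fun _ : Fin d => G) i g)) ∧
            A ∪ Fintype.piFinset (Function.update (fun _ : Fin d => G) i g) ∈ S := by
  intro d δ hδ w hw T hT
  have hT' : Pool.Agent.Lib.MP_90b327_co.OI.Thick {n | n ∈ T ∧ 1 ≤ n} := by
    intro k
    obtain ⟨x, hx⟩ := hT (2 * k + 1)
    refine ⟨x + k + 1, by omega, fun i hi => ⟨?_, ?_⟩⟩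
    · have := hx (k + 1 + i) (by omega)
      rwa [show x + (k + 1 + i) = x + k + 1 + i by omega] at this
    · show 1 ≤ x + k + 1 + i
      omega
  obtain ⟨N₀, h₀⟩ := Pool.Agent.Lib.MP_90b327_co.OI.near_cubes d δ hδ _ hT' w hw
  refine ⟨N₀, fun N hN i S hS => ?_⟩
  obtain ⟨A, hA, g, G, h1, h2, h3, h4, h5⟩ := h₀ N hN i S hS
  refine ⟨A, hA, g, G, ?_, h1, h2.1, ?_, h4, h5⟩
  · rw [← Finset.card_pos]
    exact h2.2
  · rw [Finset.card_sdiff_of_subset h1]
    omega

end Pool.Agent.Results.MP_90b327_co.NearCubes
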