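import Mathlib
import Pool.Agent.Lib.MP_90b327_co.NS.NFinal

/-!
The conclusion of the restricted density polynomial Hales-Jewett conjecture for `d = 2`, for every
density and every family, up to `w (|γ|)` additional columns, `w` tending to infinity arbitrarily
slowly: near-squares `γ × γ'`, `γ ⊆ γ'`, `|γ' \ γ| ≤ w (|γ|)`.
-/

set_option autoImplicit false

namespace Pool.Agent.Results.MP_90b327_co.NearSquares

open Pool.Agent.Lib.MP_90b327_co Pool.Agent.Lib.MP_90b327_co.RB Pool.Agent.Lib.MP_90b327_co.NS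

/-- For all `δ > 0`, `M` and all `w : ℕ → ℕ` tending to infinity there is `N₀` such that for
`N ≥ N₀` every family of more than `δ * 2^(N^2)` subsets of `[N]^2` contains a set `A` and
`A ∪ γ × γ'` with `γ ⊆ γ' ⊆ [N]`, `γ` non-empty, `|γ| ≥ M`, `|γ' \ γ| ≤ w (|γ|)` and `A` disjoint
from `γ × γ'`. -/
theorem result :
    ∀ δ : ℝ, 0 < δ → ∀ (M : ℕ) (w : ℕ → ℕ), Filter.Tendsto w Filter.atTop Filter.atTop →
      ∃ N₀ : ℕ, ∀ N : ℕ, N₀ ≤ N → ∀ S : Finset (Finset (Fin 2 → Fin N)),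
        (S.card : ℝ) > δ * (2 : ℝ) ^ (N ^ 2) →
          ∃ A ∈ S, ∃ γ γ' : Finset (Fin N), γ.Nonempty ∧ M ≤ γ.card ∧ γ ⊆ γ' ∧
            (γ' \ γ).card ≤ w γ.card ∧
            Disjoint A (Fintype.piFinset ![γ, γ']) ∧
            A ∪ Fintype.piFinset ![γ, γ'] ∈ S := by
  intro δ hδ M w hw
  obtain ⟨N₀, h₀⟩ := near_squares δ hδ M w hw
  refine ⟨N₀, fun N hN S hS => ?_⟩
  obtain ⟨A, hA, γ, γ', h1, h2, h3, h4, h5, h6⟩ := h₀ N hN S hS
  have e : bx γ γ' = Fintype.piFinset ![γ, γ'] := by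
    ext c
    simp [bx, Fintype.mem_piFinset, Fin.forall_fin_two]
  refine ⟨A, hA, γ, γ', h1, h3, h2, ?_, ?_, ?_⟩
  · rw [Finset.card_sdiff_of_subset h2]
    omega
  · rw [← e]
    exact h5
  · rw [← e]
    exact h6

end Pool.Agent.Results.MP_90b327_co.NearSquares
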