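import Mathlib
import Pool.Agent.Lib.MP_90b327_co.WW.WFinal

/-!
The density statement of the restricted polynomial Hales-Jewett problem, for every dimension, every density
and every family, with the last side of the cube replaced by a set of prescribed size up to an error
which grows arbitrarily slowly.
-/

set_option autoImplicit false

namespace Pool.Agent.Results.MP_90b327_co.PowerTimesSet

open Finset Filter

/-- For all `d ≥ 1`, `δ > 0`, `M`, all functions `F, w : ℕ → ℕ` with `w m → ∞` there is `N₀` such that for all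
`N ≥ N₀` every family `S` of more than `δ 2^(N^(d+1))` subsets of `[N]^(d+1)` contains `A` and `A ∪ (γ^d × Γ)` for
some `γ, Γ ⊆ [N]` with `|γ| ≥ M`, `Γ ≠ ∅`, `F |γ| ≤ |Γ| ≤ F |γ| + w |γ|`, `A` disjoint from `γ^d × Γ`.

`Fintype.piFinset (Fin.snoc (fun _ => γ) Γ)` is the set of the points of `[N]^(d+1)` whose first `d` coordinates are
in `γ` and whose last coordinate is in `Γ`. -/
theorem result (d : ℕ) (hd : 1 ≤ d) (δ : ℝ) (hδ : 0 < δ) (M : ℕ) (F w : ℕ → ℕ)
    (hw : Tendsto w atTop atTop) :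
    ∃ N₀ : ℕ, ∀ N, N₀ ≤ N → ∀ S : Finset (Finset (Fin (d + 1) → Fin N)),
      δ * 2 ^ (N ^ (d + 1)) < (S.card : ℝ) →
      ∃ A ∈ S, ∃ γ Γ : Finset (Fin N), M ≤ γ.card ∧ Γ.Nonempty ∧ F γ.card ≤ Γ.card ∧
        Γ.card ≤ F γ.card + w γ.card ∧
        Disjoint A (Fintype.piFinset (Fin.snoc (α := fun _ => Finset (Fin N)) (fun _ : Fin d => γ) Γ)) ∧
        A ∪ Fintype.piFinset (Fin.snoc (α := fun _ => Finset (Fin N)) (fun _ : Fin d => γ) Γ) ∈ S := by
  obtain ⟨N₀, h⟩ := Pool.Agent.Lib.MP_90b327_co.WW.w_final d hd δ hδ M F w hw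
  refine ⟨N₀, fun N hN S hS => ?_⟩
  obtain ⟨A, hA, γ, Γ, h1, h2, h3, h4, h5, h6⟩ := h N hN S hS
  have e : Fintype.piFinset (Fin.snoc (α := fun _ => Finset (Fin N)) (fun _ : Fin d => γ) Γ) =
      Pool.Agent.Lib.MP_90b327_co.WW.cyl γ Γ := by
    ext c
    unfold Pool.Agent.Lib.MP_90b327_co.WW.cyl
    rw [Fintype.mem_piFinset, Finset.mem_filter]
    constructor
    · intro hc
      refine ⟨Finset.mem_univ _, fun i => ?_, ?_⟩
      · have := hc i.castSucc
        rwa [Fin.snoc_castSucc] at this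
      · have := hc (Fin.last d)
        rwa [Fin.snoc_last] at this
    · rintro ⟨-, hc1, hc2⟩ i
      refine Fin.lastCases ?_ (fun j => ?_) i
      · rw [Fin.snoc_last]
        exact hc2
      · rw [Fin.snoc_castSucc]
        exact hc1 j
  refine ⟨A, hA, γ, Γ, h1, Finset.card_pos.mp h2, h3, h4, ?_, ?_⟩
  · rw [e]
    exact h5
  · rw [e]
    exact h6

end Pool.Agent.Results.MP_90b327_co.PowerTimesSet
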