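import Mathlib
import Pool.Agent.Lib.MP_90b327_co.T2Limit
import Pool.Agent.Lib.MP_90b327_co.SGMain
import Pool.Agent.Lib.MP_90b327_co.SGFin

/-!
The conclusion of the restricted density polynomial Hales-Jewett conjecture holds for every `d`
and every density `δ ≥ 1/2 - 2 / (9 √(2^d))`.
-/

set_option autoImplicit false

namespace Pool.Agent.Results.MP_90b327_co.SquareRootGap

open Pool.Agent.Lib.MP_90b327_co

/-- For every `d ≥ 1` and every `δ ≥ 1/2 - 2 / (9 √(2^d))` there is `N` such that every family of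
more than `δ * 2^(N^d)` subsets of `[N]^d` contains a set `A` and `A ∪ γ^d` for some non-empty
`γ ⊆ [N]` with `A` disjoint from `γ^d`. -/
theorem result :
    ∀ d : ℕ, 1 ≤ d → ∀ δ : ℝ, 1 / 2 - 2 / (9 * Real.sqrt ((2 : ℝ) ^ d)) ≤ δ →
      ∃ N : ℕ, ∀ S : Finset (Finset (Fin d → Fin N)),
        (S.card : ℝ) > δ * (2 : ℝ) ^ (N ^ d) →
          ∃ A ∈ S, ∃ γ : Finset (Fin N), γ.Nonempty ∧
            Disjoint A (Fintype.piFinset (fun _ : Fin d => γ)) ∧
            A ∪ Fintype.piFinset (fun _ : Fin d => γ) ∈ S := by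
  intro d hd δ hδ
  by_contra hcon
  push Not at hcon
  set δ₀ : ℝ := 1 / 2 - 2 / (9 * Real.sqrt ((2 : ℝ) ^ d)) with hδ₀
  have h : ∀ N : ℕ, ∃ S : Finset (Finset (Fin d → Fin N)),
      (S.card : ℝ) > δ₀ * 2 ^ (N ^ d) ∧ ¬ Good d N S := by
    intro N
    obtain ⟨S, hS, hS'⟩ := hcon N
    refine ⟨S, ?_, ?_⟩
    · have h1 : (0 : ℝ) < 2 ^ (N ^ d) := by positivity
      exact lt_of_le_of_lt (mul_le_mul_of_nonneg_right hδ h1.le) hS
    · rintro ⟨A, hA, γ, hγ, h1, h2⟩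
      exact hS' A hA γ hγ h1 h2
  have h0 : 0 ≤ δ₀ := by
    have h1 : (1 : ℝ) ≤ Real.sqrt ((2 : ℝ) ^ d) := by
      rw [Real.one_le_sqrt]
      exact one_le_pow₀ (by norm_num)
    have h2 : 2 / (9 * Real.sqrt ((2 : ℝ) ^ d)) ≤ 1 / 2 := by
      rw [div_le_iff₀ (by positivity)]
      linarith
    linarith
  obtain ⟨L⟩ := exists_limM d hd δ₀ h0 h
  exact SG.final_ineq d hd δ₀ hδ₀ (fun M hM => SG.LimM_ineq L hd M hM)

end Pool.Agent.Results.MP_90b327_co.SquareRootGap
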