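import Mathlib
import Pool.Agent.Lib.MP_90b327_co.H38Main

/-!
Families of positive density which are, up to few sets, determined by the value of a local function
with values in a small abelian group, together with families of small total influence, are good.
-/

set_option autoImplicit false

namespace Pool.Agent.Results.MP_90b327_co.StructuredFamilies

open Finset Pool.Agent.Lib.MP_90b327_co.H38

theorem result (d k q : ℕ) (hd : 1 ≤ d) (δ : ℝ) (hδ : 0 < δ) :
    ∃ ε : ℝ, 0 < ε ∧ ∃ N₀ : ℕ, ∀ N ≥ N₀, ∀ (G : Type) [AddCommGroup G] [Fintype G],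
      Fintype.card G ≤ q → ∀ F : Finset (Fin d → Fin N) → G, IsLocal k F →
        ∀ T : G → Finset (Finset (Fin d → Fin N)),
          (∀ v, (boundary (T v) : ℝ) ≤ ε * N * 2 ^ (N ^ d)) →
            ∀ S : Finset (Finset (Fin d → Fin N)),
              ((symmDiff S (univ.filter (fun A => A ∈ T (F A)))).card : ℝ) ≤
                ε * 2 ^ (N ^ d) →
              (S.card : ℝ) > δ * 2 ^ (N ^ d) →
                ∃ A ∈ S, ∃ γ : Finset (Fin N), γ.Nonempty ∧
                  Disjoint A (Fintype.piFinset (fun _ : Fin d => γ)) ∧
                  A ∪ Fintype.piFinset (fun _ : Fin d => γ) ∈ S :=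
  structured d k q hd δ hδ

end Pool.Agent.Results.MP_90b327_co.StructuredFamilies
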