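import Mathlib
import Pool.Agent.Lib.MP_90b327_co.SF3
import Pool.Agent.Lib.MP_90b327_co.SF4

/-!
Families of subsets of `[N]^d` determined, up to few sets, by local functions into cyclic
`p`-groups of total complexity at most `c (log N)^(1/(d-1))` are good down to density
`exp(-√N)`; the bound on the complexity is sharp up to the constant.
-/

set_option autoImplicit false

namespace Pool.Agent.Results.MP_90b327_co.StructuredThreshold

open Finset Pool.Agent.Lib.MP_90b327_co.H38

open scoped Classical in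
theorem result (d : ℕ) (hd : 2 ≤ d) :
    (∀ (N K r p : ℕ) (a k : Fin r → ℕ)
      (F : (i : Fin r) → Finset (Fin d → Fin N) → ZMod (p ^ a i)),
      p.Prime → (∀ i, IsLocal (k i) (F i)) → ∑ i, k i * (p ^ a i - 1) < K →
      2 ^ (8 * d * K ^ (d - 1)) ≤ N →
      ∀ (V : Set ((i : Fin r) → ZMod (p ^ a i))) (S : Finset (Finset (Fin d → Fin N))) (δ : ℝ),
        Real.exp (-√(N : ℝ)) ≤ δ → δ * 2 ^ (N ^ d) ≤ (S.card : ℝ) →
        ((symmDiff S (univ.filter (fun A => (fun i => F i A) ∈ V))).card : ℝ) *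
          (2 ^ (4 * d * K ^ (d - 1)) * (1 + Real.log (1 / δ))) ^ K ≤ S.card →
        ∃ A ∈ S, ∃ γ : Finset (Fin N), γ.Nonempty ∧
          Disjoint A (Fintype.piFinset (fun _ : Fin d => γ)) ∧
          A ∪ Fintype.piFinset (fun _ : Fin d => γ) ∈ S) ∧
    (∀ N p L : ℕ, p.Prime → 1 ≤ L → 2 ≤ N →
      ∃ t v : ℕ, (p ^ t : ℝ) ^ (d - 1) ≤ p ^ (d - 1) * (L + 1) * Real.logb 2 N ∧
        IsLocal (d := d) (N := N) 1 (fun A => ((loops A : ℕ) : ZMod (p ^ t))) ∧
        ∃ S : Finset (Finset (Fin d → Fin N)),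
          (¬ ∃ A ∈ S, ∃ γ : Finset (Fin N), γ.Nonempty ∧
            Disjoint A (Fintype.piFinset (fun _ : Fin d => γ)) ∧
            A ∪ Fintype.piFinset (fun _ : Fin d => γ) ∈ S) ∧
          2 ^ (N ^ d) ≤ 2 * p ^ t * S.card ∧
          (symmDiff S (univ.filter (fun A => loops A % p ^ t = v))).card * N ^ (L * p ^ t) ≤
            2 ^ (N ^ d)) ∧
    (∀ (N m : ℕ) (P : MvPolynomial (Fin d → Fin N) (ZMod m)),
      IsLocal (d * P.totalDegree)
        (fun A => MvPolynomial.eval (fun c => if c ∈ A then (1 : ZMod m) else 0) P)) := by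
  refine ⟨?_, ?_, ?_⟩
  · intro N K r p a k F hp hF hK hN V S δ hδ hS hclose
    refine part_a hd hp a k F hF K hK hN (univ.filter (fun A => (fun i => F i A) ∈ V)) ?_ S δ hδ hS
      hclose
    intro A B hAB
    have h : (fun i => F i A) = (fun i => F i B) := funext hAB
    simp only [mem_filter, mem_univ, true_and]
    rw [h]
  · intro N p L hp hL hN
    obtain ⟨t, v, h1, S, h2, h3, h4⟩ := part_b (d := d) (N := N) hd p L hp.two_le hL hN
    refine ⟨t, v, h1, isLocal_loops (by omega) _, S, h2, h3, ?_⟩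
    convert h4
  · intro N m P
    have := isLocal_poly (d := d) (N := N) P
    convert this

end Pool.Agent.Results.MP_90b327_co.StructuredThreshold
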